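import Pool.Agent.H36.NT.A

/-!
# NT, module B: malnormality in amalgams
-/

set_option autoImplicit false

namespace Pool.Agent.H35.NT

open Monoid

section B

variable {I : Type} {G : I → Type} [∀ i, Group (G i)] {K : Type} [Group K]
  {φ : ∀ i, K →* G i}

/-- the inverse of a list of syllables -/
def irl (l : List (Σ i, G i)) : List (Σ i, G i) :=
  l.reverse.map fun s => ⟨s.1, s.2⁻¹⟩

theorem lp_irl (l : List (Σ i, G i)) : lp φ (irl l) = (lp φ l)⁻¹ := by
  induction l with
  | nil => simp [lp, irl]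
  | cons s l ih =>
    have h1 : irl (s :: l) = irl l ++ [(⟨s.1, s.2⁻¹⟩ : Σ i, G i)] := by
      simp [irl]
    rw [h1, lp_append, ih, lp_cons, lp_cons, lp_nil]
    simp

theorem irl_length (l : List (Σ i, G i)) : (irl l).length = l.length := by
  simp [irl]

/-- conjugating one syllable by a reduced list -/
theorem red_conj {l : List (Σ i, G i)} (hl : Red φ l) (s : Σ i, G i) (hs : s.2 ∉ (φ s.1).range)
    (hh : ∀ t ∈ l.head?, t.1 ≠ s.1) : Red φ (irl l ++ (s :: l)) := by
  constructor
  · intro t ht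
    rw [List.mem_append, List.mem_cons] at ht
    rcases ht with ht | rfl | ht
    · unfold irl at ht
      rw [List.mem_map] at ht
      obtain ⟨u, hu, rfl⟩ := ht
      rw [List.mem_reverse] at hu
      intro h
      exact hl.1 u hu (by simpa using (Subgroup.inv_mem _ h))
    · exact hs
    · exact hl.1 t ht
  · rw [List.isChain_append]
    refine ⟨?_, ?_, ?_⟩
    · unfold irl
      rw [List.isChain_map, List.isChain_reverse]
      exact hl.2.imp (fun a b hab => Ne.symm hab)
    · rw [List.isChain_cons]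
      exact ⟨fun t ht => (hh t ht).symm, hl.2⟩
    · intro x hx y hy
      unfold irl at hx
      rw [List.getLast?_map, List.getLast?_reverse] at hx
      simp only [List.head?_cons, Option.mem_def, Option.some.injEq] at hy
      subst hy
      simp only [Option.mem_def, Option.map_eq_some_iff] at hx
      obtain ⟨u, hu, rfl⟩ := hx
      exact hh u hu

theorem lp_conj (l : List (Σ i, G i)) (s : Σ i, G i) :
    lp φ (irl l ++ (s :: l)) = (lp φ l)⁻¹ * PushoutI.of (φ := φ) s.1 s.2 * lp φ l := by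
  rw [lp_append, lp_irl, lp_cons, mul_assoc]

/-- B1 -/
theorem maln_of (hφ : ∀ i, Function.Injective (φ i)) (k : I) (C : Subgroup (G k)) (hC : Maln C)
    (h : ∀ z ∈ C, z ≠ 1 → ∀ (g : G k) (b : K), g⁻¹ * z * g = φ k b → ∀ i, i ≠ k → ∀ s : G i,
      s⁻¹ * φ i b * s ∈ (φ i).range → s ∈ (φ i).range) :
    Maln (C.map (PushoutI.of (φ := φ) k)) := by
  intro g d hd hd1 hg
  rw [Subgroup.mem_map] at hd hg
  obtain ⟨z, hz, rfl⟩ := hd
  obtain ⟨z2, hz2, hzz⟩ := hg
  have hz1 : z ≠ 1 := by
    rintro rfl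
    exact hd1 (map_one _)
  obtain ⟨a, l, hl, hh, rfl⟩ := exists_red hφ k g
  have e1 : (lp φ l)⁻¹ * PushoutI.of (φ := φ) k (a⁻¹ * z * a) * lp φ l =
      PushoutI.of (φ := φ) k z2 := by
    rw [hzz]
    simp only [map_mul, map_inv]
    group
  cases l with
  | nil =>
    rw [lp_nil] at e1 ⊢
    have e2 : PushoutI.of (φ := φ) k (a⁻¹ * z * a) = PushoutI.of (φ := φ) k z2 := by
      simpa using e1
    have e3 := PushoutI.of_injective hφ k e2
    rw [mul_one]
    refine Subgroup.mem_map_of_mem _ (hC a z hz hz1 ?_)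
    rw [e3]
    exact hz2
  | cons s l =>
    exfalso
    have hsk : s.1 ≠ k := hh s (by simp)
    by_cases hb : a⁻¹ * z * a ∈ (φ k).range
    · obtain ⟨b, hb⟩ := hb
      have hs : s.2⁻¹ * φ s.1 b * s.2 ∉ (φ s.1).range := by
        intro hs
        exact hl.1 s (by simp) (h z hz hz1 a b hb.symm s.1 hsk s.2 hs)
      have hl' : Red φ l := ⟨fun t ht => hl.1 t (by simp [ht]), by
        have := hl.2
        rw [List.isChain_cons] at this
        exact this.2⟩
      have hh' : ∀ t ∈ l.head?, t.1 ≠ s.1 := by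
        have := hl.2
        rw [List.isChain_cons] at this
        intro t ht
        exact (this.1 t ht).symm
      have e2 : (lp φ l)⁻¹ * PushoutI.of (φ := φ) s.1 (s.2⁻¹ * φ s.1 b * s.2) * lp φ l =
          PushoutI.of (φ := φ) k z2 := by
        rw [← e1, lp_cons, ← hb, PushoutI.of_apply_eq_base φ k b,
          ← PushoutI.of_apply_eq_base φ s.1 b]
        simp only [map_mul, map_inv]
        group
      cases l with
      | nil =>
        rw [lp_nil] at e2
        have e3 : PushoutI.of (φ := φ) s.1 (s.2⁻¹ * φ s.1 b * s.2) =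
            PushoutI.of (φ := φ) k z2 := by simpa using e2
        exact of_not_of hφ hsk hs ⟨z2, e3.symm⟩
      | cons t l =>
        have h3 := red_conj hl' (⟨s.1, s.2⁻¹ * φ s.1 b * s.2⟩ : Σ i, G i) hs hh'
        refine red_not_of hφ h3 ?_ k ?_
        · simp [irl]
          omega
        · rw [lp_conj]
          exact ⟨z2, e2.symm⟩
    · have h3 := red_conj hl (⟨k, a⁻¹ * z * a⟩ : Σ i, G i) hb hh
      refine red_not_of hφ h3 ?_ k ?_
      · simp [irl]
        omega
      · rw [lp_conj]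
        exact ⟨z2, e1.symm⟩

/-- B2 -/
theorem maln_of' (hφ : ∀ i, Function.Injective (φ i)) (k : I) (C : Subgroup (G k)) (hC : Maln C)
    (h : ∀ i, i ≠ k → Maln (φ i).range) : Maln (C.map (PushoutI.of (φ := φ) k)) := by
  refine maln_of hφ k C hC ?_
  intro z _ hz1 g b hb i hik s hs
  refine h i hik s (φ i b) ⟨b, rfl⟩ ?_ hs
  intro h1
  have hb1 : b = 1 := hφ i (by rw [h1, map_one])
  rw [hb1, map_one] at hb
  apply hz1
  have : z = g * (g⁻¹ * z * g) * g⁻¹ := by group
  rw [this, hb]
  group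

/-- B3 -/
theorem maln_range_of (hφ : ∀ i, Function.Injective (φ i)) (k : I)
    (h : ∀ i, i ≠ k → Maln (φ i).range) : Maln (PushoutI.of (φ := φ) k).range := by
  have h1 := maln_of' hφ k ⊤ (fun _ _ _ _ _ => Subgroup.mem_top _) h
  rwa [← MonoidHom.range_eq_map] at h1

/-- B4 -/
theorem maln_range_base (hφ : ∀ i, Function.Injective (φ i)) [Nonempty I]
    (h : ∀ i, Maln (φ i).range) : Maln (PushoutI.base φ).range := by
  obtain ⟨k⟩ := ‹Nonempty I›
  have h1 := maln_of' hφ k (φ k).range (h k) (fun i _ => h i)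
  have h2 : (φ k).range.map (PushoutI.of (φ := φ) k) = (PushoutI.base φ).range := by
    rw [← MonoidHom.range_comp, PushoutI.of_comp_eq_base]
  rwa [h2] at h1

end B

/-- B5 -/
theorem Maln.map {G H : Type} [Group G] [Group H] {D : Subgroup G} (hD : Maln D) (f : G →* H)
    (hf : Function.Injective f) (hm : Maln f.range) : Maln (D.map f) := by
  intro g d hd hd1 hg
  rw [Subgroup.mem_map] at hd hg
  obtain ⟨z, hz, rfl⟩ := hd
  obtain ⟨z2, hz2, hzz⟩ := hg
  have hz1 : z ≠ 1 := by
    rintro rfl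
    exact hd1 (map_one _)
  obtain ⟨g', rfl⟩ := hm g (f z) ⟨z, rfl⟩ hd1 ⟨z2, hzz⟩
  have e : f z2 = f (g'⁻¹ * z * g') := by
    rw [hzz]
    simp
  have e2 := hf e
  exact Subgroup.mem_map_of_mem _ (hD g' z hz hz1 (e2 ▸ hz2))

end Pool.Agent.H35.NT
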